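import Mathlib

/-!
# Minimal subshifts, conjugacy, countable Borel equivalence relations: definitions
-/

namespace Pool.H4.NUN

open TopologicalSpace

section
variable {Z : Type} [TopologicalSpace Z] (s : Z → Z)

/-- `X` is invariant under `s`, and the orbit of every point of `X` is dense in `X`. -/
def Minimal (X : Set Z) : Prop :=
  s '' X = X ∧ ∀ x ∈ X, X ⊆ closure {y | ∃ n : ℕ, s^[n] x = y ∨ s^[n] y = x}

/-- There is a homeomorphism `f` of `X` onto `Y` (with inverse `g`) which commutes with `s`. -/
def Conj (X Y : Set Z) : Prop :=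
  ∃ f g : Z → Z, ContinuousOn f X ∧ ContinuousOn g Y ∧
    (∀ x ∈ X, f x ∈ Y ∧ g (f x) = x ∧ f (s x) = s (f x)) ∧ ∀ y ∈ Y, g y ∈ X ∧ f (g y) = y

end

/-- The left shift on `ℕ^ℤ`. -/
def shift (x : ℤ → ℕ) (i : ℤ) : ℕ := x (i + 1)

/-- The space of the nonempty compact subsets of `ℕ^ℤ`. -/
def Compacts : Type := NonemptyCompacts (ℤ → ℕ)

/-- The Borel sets of the Vietoris topology. -/
instance borelSets : MeasurableSpace Compacts := borel (NonemptyCompacts (ℤ → ℕ))

/-- The points of a nonempty compact set. -/
def pts (X : Compacts) : Set (ℤ → ℕ) := (show NonemptyCompacts (ℤ → ℕ) from X)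

/-- The space of all minimal subshifts. -/
def MinSub : Type := {X : Compacts // Minimal shift (pts X)}

/-- The minimal subshift as a set. -/
def sub (X : MinSub) : Set (ℤ → ℕ) := pts X.1

/-- The Borel sets of this space. -/
instance borelMinSub : MeasurableSpace MinSub := borelSets.comap Subtype.val

section
variable {A B : Type} [MeasurableSpace A] [MeasurableSpace B]

/-- `F` is a countable Borel equivalence relation on `A`. -/
def CBER (F : A → A → Prop) : Prop :=
  Equivalence F ∧ MeasurableSet {p : A × A | F p.1 p.2} ∧ ∀ x, {y | F x y}.Countable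

/-- `F` is Borel reducible to `E`. -/
def BorelReducible (F : A → A → Prop) (E : B → B → Prop) : Prop :=
  ∃ t : A → B, Measurable t ∧ ∀ x y, F x y ↔ E (t x) (t y)

/-- There is a Borel homomorphism with countable fibres from `F` to `E`. -/
def WeaklyReducible (F : A → A → Prop) (E : B → B → Prop) : Prop :=
  ∃ t : A → B, Measurable t ∧ (∀ x y, F x y → E (t x) (t y)) ∧ ∀ z, {x | t x = z}.Countable

/-- Some countable Borel equivalence relation `F` on a standard Borel space is neither Borel
reducible nor weakly Borel reducible to `E`: so `E` is not universal and not weakly universal. -/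
def NotUniversal (E : B → B → Prop) : Prop :=
  ∃ (A : Type) (_ : MeasurableSpace A) (_ : StandardBorelSpace A) (F : A → A → Prop),
    CBER F ∧ ¬ BorelReducible F E ∧ ¬ WeaklyReducible F E

end

end Pool.H4.NUN
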