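import Pool.Agent.H71.NU.All

/-!
# Topological conjugacy of minimal subshifts is not universal

Topological conjugacy on the space of all minimal subshifts (nonempty compact subsets of `ℕ^ℤ`
with the Borel sets of the Vietoris topology) is not a universal, and not even a weakly universal,
countable Borel equivalence relation: there is a countable Borel equivalence relation on a
standard Borel space which is not Borel reducible to it, and from which there is no Borel
homomorphism with countable fibres to it.
-/

namespace Pool.H4.NUN.Old

open MS NU TopologicalSpace

/-- Topological conjugacy of minimal subshifts is neither universal nor weakly universal. -/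
theorem result :
    ∃ (A : Type) (_ : MeasurableSpace A) (_ : StandardBorelSpace A) (F : A → A → Prop),
      CBER F ∧
      ¬ BorelReducible F
        (fun X Y : {X : NonemptyCompacts (ℤ → ℕ) // IsMinSubshift X} => Conj X Y) ∧
      ¬ WeaklyReducible F
        (fun X Y : {X : NonemptyCompacts (ℤ → ℕ) // IsMinSubshift X} => Conj X Y) :=
  NU.all

end Pool.H4.NUN.Old
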