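import Pool.Agent.H4.NUN.Defs
import Pool.Agent.H4.NUN.Old

/-! The statement over `Pool.H4.NUN` from the one over `MS.Defs`. -/

namespace Pool.H4.NUN

open TopologicalSpace Filter Topology

theorem iter (n : ℕ) (x : ℤ → ℕ) (i : ℤ) : shift^[n] x i = x (i + n) := by
  induction n generalizing x with
  | zero => simp
  | succ n ih =>
    rw [Function.iterate_succ_apply, ih]
    show x (i + n + 1) = _
    push_cast
    ring_nf

theorem orbit (x : ℤ → ℕ) : {y : ℤ → ℕ | ∃ n : ℕ, shift^[n] x = y ∨ shift^[n] y = x} =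
    {y | ∃ n : ℤ, ∀ i, y i = x (i + n)} := by
  ext y
  constructor
  · rintro ⟨n, h | h⟩
    · exact ⟨n, fun i => by rw [← h, iter]⟩
    · refine ⟨-n, fun i => ?_⟩
      rw [← h, iter]
      congr 1
      ring
  · rintro ⟨n, h⟩
    obtain ⟨k, rfl | rfl⟩ := n.eq_nat_or_neg
    · exact ⟨k, Or.inl (funext fun i => by rw [iter, h])⟩
    · refine ⟨k, Or.inr (funext fun i => ?_)⟩
      rw [iter, h]
      congr 1
      ring

theorem minimal_iff (X : NonemptyCompacts (ℤ → ℕ)) :
    Minimal shift (pts X) ↔ MS.IsMinSubshift X := by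
  unfold Minimal MS.IsMinSubshift
  refine and_congr Iff.rfl (forall₂_congr fun x _ => ?_)
  rw [orbit]
  exact Iff.rfl

theorem contOn {X : Set (ℤ → ℕ)} (φ : X → ℤ → ℕ) (h : Continuous φ) (f : (ℤ → ℕ) → ℤ → ℕ)
    (hf : ∀ x : X, f x = φ x) : ContinuousOn f X := by
  rw [continuousOn_iff_continuous_domRestrict]
  have : X.domRestrict f = φ := funext hf
  rwa [this]

theorem conj_iff (X Y : NonemptyCompacts (ℤ → ℕ)) (hX : MS.IsMinSubshift X) :
    Conj shift (pts X) (pts Y) ↔ MS.Conj X Y := by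
  classical
  have hs : ∀ x ∈ (X : Set (ℤ → ℕ)), shift x ∈ (X : Set (ℤ → ℕ)) := by
    intro x hx
    have := hX.1
    rw [← this]
    exact ⟨x, hx, rfl⟩
  constructor
  · rintro ⟨f, g, hf, hg, h1, h2⟩
    refine ⟨{ toFun := fun x => ⟨f x, (h1 x x.2).1⟩
              invFun := fun y => ⟨g y, (h2 y y.2).1⟩
              left_inv := fun x => Subtype.ext (h1 x x.2).2.1
              right_inv := fun y => Subtype.ext (h2 y y.2).2
              continuous_toFun := (continuousOn_iff_continuous_domRestrict.1 hf).subtype_mk _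
              continuous_invFun := (continuousOn_iff_continuous_domRestrict.1 hg).subtype_mk _ }, ?_⟩
    intro x x' hx
    show f x' = shift (f x)
    rw [hx]
    exact (h1 x x.2).2.2
  · rintro ⟨φ, hφ⟩
    refine ⟨fun x => if h : x ∈ (X : Set (ℤ → ℕ)) then (φ ⟨x, h⟩ : ℤ → ℕ) else x,
      fun y => if h : y ∈ (Y : Set (ℤ → ℕ)) then (φ.symm ⟨y, h⟩ : ℤ → ℕ) else y, ?_, ?_, ?_, ?_⟩
    · exact contOn (X := (X : Set (ℤ → ℕ))) (fun x => (φ x : ℤ → ℕ))
        (continuous_subtype_val.comp φ.continuous) _ fun x => dif_pos x.2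
    · exact contOn (X := (Y : Set (ℤ → ℕ))) (fun x => (φ.symm x : ℤ → ℕ))
        (continuous_subtype_val.comp φ.symm.continuous) _ fun x => dif_pos x.2
    · intro x hx
      have hx : x ∈ (X : Set (ℤ → ℕ)) := hx
      have hy := (φ ⟨x, hx⟩).2
      refine ⟨?_, ?_, ?_⟩
      · simp only [dif_pos hx]
        exact hy
      · simp only [dif_pos hx, dif_pos hy, Subtype.coe_eta, φ.symm_apply_apply]
      · simp only [dif_pos hx, dif_pos (hs x hx)]
        exact hφ ⟨x, hx⟩ ⟨shift x, hs x hx⟩ rfl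
    · intro y hy
      have hy : y ∈ (Y : Set (ℤ → ℕ)) := hy
      have hx := (φ.symm ⟨y, hy⟩).2
      refine ⟨?_, ?_⟩
      · simp only [dif_pos hy]
        exact hx
      · simp only [dif_pos hx, dif_pos hy, Subtype.coe_eta, φ.apply_symm_apply]

/-- The map to the old space. -/
def toOld (X : MinSub) : {X : NonemptyCompacts (ℤ → ℕ) // MS.IsMinSubshift X} :=
  ⟨X.1, (minimal_iff X.1).1 X.2⟩

theorem measurable_toOld : Measurable toOld := by
  rw [measurable_iff_comap_le]
  rintro _ ⟨_, ⟨s, hs, rfl⟩, rfl⟩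
  exact ⟨s, hs, rfl⟩

theorem toOld_inj {X Y : MinSub} (h : toOld X = toOld Y) : X = Y := by
  have h1 : (toOld X).1 = (toOld Y).1 := congrArg Subtype.val h
  exact Subtype.ext h1

theorem conj_old (X Y : MinSub) :
    Conj shift (sub X) (sub Y) ↔ MS.Conj (toOld X).1 (toOld Y).1 :=
  conj_iff _ _ (toOld X).2

theorem main : NotUniversal fun X Y : MinSub => Conj shift (sub X) (sub Y) := by
  obtain ⟨A, mA, sA, F, h1, h2, h3⟩ := Old.result
  refine ⟨A, mA, sA, F, ⟨h1.equiv, h1.borel, h1.countable⟩, ?_, ?_⟩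
  · rintro ⟨t, ht, h⟩
    exact h2 ⟨fun x => toOld (t x), measurable_toOld.comp ht,
      fun x y => (h x y).trans (conj_old _ _)⟩
  · rintro ⟨t, ht, h, hc⟩
    refine h3 ⟨fun x => toOld (t x), measurable_toOld.comp ht,
      fun x y hxy => (conj_old _ _).1 (h x y hxy), fun z => ?_⟩
    by_cases hz : ∃ x0, toOld (t x0) = z
    · obtain ⟨x0, rfl⟩ := hz
      refine (hc (t x0)).mono fun x hx => ?_
      exact toOld_inj hx
    · have : {x | toOld (t x) = z} = ∅ := by
        ext x
        simp only [Set.mem_ofPred_eq, Set.mem_empty_iff_false, iff_false]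
        exact fun h => hz ⟨x, h⟩
      rw [this]
      exact Set.countable_empty

end Pool.H4.NUN
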